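import Pool.Agent.N666.TM.Thin

set_option autoImplicit false

/-! # The proportion of the members of a thin sequence of integer vectors in a residue class -/

namespace Pool.Agent.N943.TS

open Pool.Agent.N666.TM Pool.Agent.Y722.HS

section
variable {ι : Type} [Fintype ι] [DecidableEq ι]

theorem card_class_ge {s : Finset ℕ} {x : ℕ → ι → ℤ} {H : ℕ} (hw : Well s x H) (hH : 1 ≤ H)
    (Q : ℕ) (hQ : 1 ≤ Q) (hQH : Q ≤ 2 * H + 1) (G : ι → ℤ) :
    (1 / (2 * (Q : ℝ) ^ Fintype.card ι)) * (s.card : ℝ) ≤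
      ((s.filter (fun n => ∀ i, (Q : ℤ) ∣ x n i - G i)).card : ℝ) := by
  have hs : (0 : ℝ) < s.card := by exact_mod_cast hw.pos
  have h := hw.dist Q hQ hQH (red Q G)
  have hset : s.filter (fun n => red Q (x n) = red Q G) =
      s.filter (fun n => ∀ i, (Q : ℤ) ∣ x n i - G i) := by
    apply Finset.filter_congr
    intro n _
    constructor
    · intro h i
      have h1 := congrFun h i
      unfold red at h1
      have h2 := (ZMod.intCast_eq_intCast_iff_dvd_sub _ _ _).1 h1.symm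
      exact h2
    · intro h
      funext i
      unfold red
      exact ((ZMod.intCast_eq_intCast_iff_dvd_sub _ _ _).2 (h i)).symm
  rw [hset] at h
  set k := (s.filter (fun n => ∀ i, (Q : ℤ) ∣ x n i - G i)).card with hk
  have hQ0 : (0 : ℝ) < (Q : ℝ) ^ Fintype.card ι := by
    have : (0 : ℝ) < Q := by exact_mod_cast hQ
    positivity
  have hH1 : (1 : ℝ) / (2 * H + 1) ≤ 1 / 2 := by
    have : (1 : ℝ) ≤ H := by exact_mod_cast hH
    apply one_div_le_one_div_of_le <;> linarith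
  have h2 := (abs_le.1 h).1
  have h3 : (1 : ℝ) / (2 * H + 1) * (1 / (Q : ℝ) ^ Fintype.card ι) ≤
      1 / 2 * (1 / (Q : ℝ) ^ Fintype.card ι) := by
    apply mul_le_mul_of_nonneg_right hH1
    positivity
  have h4 : 1 / 2 * (1 / (Q : ℝ) ^ Fintype.card ι) ≤ (k : ℝ) / s.card := by linarith
  rw [le_div_iff₀ hs] at h4
  calc 1 / (2 * (Q : ℝ) ^ Fintype.card ι) * (s.card : ℝ)
      = 1 / 2 * (1 / (Q : ℝ) ^ Fintype.card ι) * s.card := by
        rw [one_div_mul_one_div]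
    _ ≤ k := h4

/-- A positive proportion of the integers and of the primes in `(N, 2 N]` for a class. -/
theorem thin_class [Nonempty ι] {F : ι → Finset ℝ} {a : ι → ℝ → ℝ} {c : ι → ℝ}
    (h : ∀ i, c i ∈ F i ∧ (∀ t ∈ F i, t ≤ c i) ∧ 0 < c i ∧ (∀ m : ℕ, c i ≠ m) ∧ 0 < a i (c i))
    (hc : Function.Injective c) (Q : ℕ) (hQ : 1 ≤ Q) (G : ι → ℤ) :
    ∀ᶠ N : ℕ in Filter.atTop,
      (1 / (2 * (Q : ℝ) ^ Fintype.card ι)) * ((Finset.Ioc N (2 * N)).card : ℝ) ≤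
        (((Finset.Ioc N (2 * N)).filter (fun n => ∀ i, (Q : ℤ) ∣ fl F a n i - G i)).card : ℝ) ∧
      (1 / (2 * (Q : ℝ) ^ Fintype.card ι)) *
          (((Finset.Ioc N (2 * N)).filter Nat.Prime).card : ℝ) ≤
        ((((Finset.Ioc N (2 * N)).filter Nat.Prime).filter
          (fun n => ∀ i, (Q : ℤ) ∣ fl F a n i - G i)).card : ℝ) := by
  obtain ⟨⟨κ₁, hκ₁, N₁, h₁⟩, ⟨κ₂, hκ₂, N₂, h₂⟩⟩ := fl_well h hc
  have ev : ∀ κ : ℝ, 0 < κ → ∀ᶠ N : ℕ in Filter.atTop, ((Q : ℕ) : ℝ) ≤ (N : ℝ) ^ κ := by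
    intro κ hκ
    exact (tendsto_rpow_atTop hκ).comp tendsto_natCast_atTop_atTop |>.eventually_ge_atTop _
  filter_upwards [ev κ₁ hκ₁, ev κ₂ hκ₂, Filter.eventually_ge_atTop N₁,
    Filter.eventually_ge_atTop N₂] with N e1 e2 e3 e4
  exact ⟨card_class_ge (h₁ N e3 Q e1) hQ Q hQ (by omega) G,
    card_class_ge (h₂ N e4 Q e2) hQ Q hQ (by omega) G⟩

/-- counting by inclusion -/
theorem card_le_natCard {u v : Finset ℕ} {S : ℕ → Prop} (h1 : ∀ t ∈ u, S t) (h2 : ∀ t, S t → t ∈ v) :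
    u.card ≤ Nat.card {t : ℕ // S t} := by
  have hfin : Finite {t : ℕ // S t} :=
    Finite.of_injective (β := {t // t ∈ v}) (fun t => ⟨t.1, h2 _ t.2⟩)
      (fun t t' h => Subtype.ext (congrArg (fun w : {t // t ∈ v} => w.1) h))
  rw [← Nat.card_eq_finsetCard]
  exact Nat.card_le_card_of_injective (fun t : {t // t ∈ u} => (⟨t.1, h1 _ t.2⟩ : {t : ℕ // S t}))
    (fun t t' h => Subtype.ext (congrArg (fun w : {t : ℕ // S t} => w.1) h))

theorem natCard_le_card {v : Finset ℕ} {S : ℕ → Prop} (h2 : ∀ t, S t → t ∈ v) :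
    Nat.card {t : ℕ // S t} ≤ v.card := by
  rw [← Nat.card_eq_finsetCard]
  exact Nat.card_le_card_of_injective (fun t : {t : ℕ // S t} => (⟨t.1, h2 _ t.2⟩ : {t // t ∈ v}))
    (fun t t' h => Subtype.ext (congrArg (fun w : {t // t ∈ v} => w.1) h))

end

end Pool.Agent.N943.TS
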