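import Pool.Agent.Results.MP_c95b3b_ag.SUnitSystems
import Pool.Agent.W466.CA
import Pool.Agent.H173R3.ZT.Gam

/-!
Sparse systems of Laurent polynomial equations: the criterion with valuations above large primes, for
arbitrary constant factors and cosets in the division hull of a finitely generated group.
-/

set_option autoImplicit false

namespace Pool.Agent.N943.TS

open MvPolynomial Pool.Agent.H173R3.ZT Pool.Agent.TH526.ZT
open Pool.Agent.Results.MP_b7926e_nt.NoAtypical (coset idealOf dim mem_idealOf)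

theorem exists_pair_val {n : ℕ} (O : ValuationSubring ℂ) (x : Fin n → ℂ) (hx : ∀ l, x l ≠ 0)
    (A : Finset (Fin n → ℤ)) (hA : A.Nonempty) (b : (Fin n → ℤ) → ℂ) (hb : ∀ α ∈ A, b α ≠ 0)
    (h0 : ∑ α ∈ A, b α * ∏ l, x l ^ α l = 0) :
    ∃ p ∈ A.offDiag, O.valuation (b p.1 * chr x p.1) = O.valuation (b p.2 * chr x p.2) := by
  classical
  by_contra hcon
  push Not at hcon
  obtain ⟨α, hα, hmax⟩ := Finset.exists_max_image A (fun α => O.valuation (b α * chr x α)) hA
  have hlt : ∀ β ∈ A \ {α}, O.valuation (b β * ∏ l, x l ^ β l) <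
      O.valuation (b α * ∏ l, x l ^ α l) := by
    intro β hβ
    rw [Finset.mem_sdiff, Finset.mem_singleton] at hβ
    exact lt_of_le_of_ne (hmax β hβ.1) (hcon (β, α) (Finset.mem_offDiag.2 ⟨hβ.1, hα, hβ.2⟩))
  have hne0 : O.valuation (b α * ∏ l, x l ^ α l) ≠ 0 :=
    (Valuation.ne_zero_iff _).2 (mul_ne_zero (hb α hα) (chr_ne_zero hx α))
  have h1 := O.valuation.map_sum_eq_of_lt (s := A) (f := fun β => b β * ∏ l, x l ^ β l)
    (j := α) hα hlt
  rw [h0, map_zero] at h1
  exact hne0 h1.symm

/-- **The criterion for sparse systems, with valuations.** -/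
theorem sys_val {n r : ℕ} (A : Fin r → Finset (Fin n → ℤ)) (hA : ∀ j, (A j).Nonempty)
    (N t : ℕ) (hN : (pairs A).card * t < N) (O : Fin N → ValuationSubring ℂ) (q : Fin N → ℂ)
    (hq : ∀ i, (O i).valuation (q i) < 1) (hq0 : ∀ i, q i ≠ 0)
    (b : Fin r → (Fin n → ℤ) → ℂ) (hb : ∀ j, ∀ α ∈ A j, b j α ≠ 0)
    (e : Fin N → Fin r → (Fin n → ℤ) → ℤ)
    (he : ∀ i j, ∀ α ∈ A j, (O i).valuation (b j α) = (O i).valuation (q i) ^ e i j α)
    (M : Submodule ℤ (Fin n → ℤ)) (η : Fin n → ℂ) (hη : ∀ l, η l ≠ 0)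
    (hηO : ∀ i l, (O i).valuation (η l) = 1) (W : Set (Fin n → ℂ)) (hWV : W ⊆ sys A b)
    (hWT : W ⊆ coset M η) (hW : (idealOf W).IsPrime)
    (hdim : (n : Cardinal) < dim W + (r : Cardinal) + (Module.finrank ℤ M : Cardinal)) :
    ∃ s ∈ pairs A, ∃ k : Fin r → ℤ, k ≠ 0 ∧
      t < {i | ∑ j, k j * (e i j (s j).1 - e i j (s j).2) = 0}.ncard := by
  classical
  let δ : (Fin r → (Fin n → ℤ) × (Fin n → ℤ)) → Fin r → Fin n → ℤ := fun s j =>
    (s j).1 - (s j).2
  obtain ⟨y, hy0, hyW, Λ, hΛr, hΛ⟩ := exists_special W hW M η hη hWT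
  have hysys : ∀ j, ∑ α ∈ A j, b j α * ∏ l, y l ^ α l = 0 := fun j =>
    laurent_vanish W (fun x hx => (hWV hx).1) (A j) (b j) (fun x hx => (hWV hx).2 j) y hy0 hyW
  have hrank : n < r + Module.finrank ℤ Λ := by
    have h1 : (n : Cardinal) < ((r + Module.finrank ℤ Λ : ℕ) : Cardinal) := by
      refine hdim.trans_le ?_
      calc dim W + (r : Cardinal) + (Module.finrank ℤ M : Cardinal)
          = (r : Cardinal) + (dim W + (Module.finrank ℤ M : Cardinal)) := by
            rw [add_comm (dim W), add_assoc]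
        _ ≤ (r : Cardinal) + (Module.finrank ℤ Λ : Cardinal) := by gcongr
        _ = _ := by push_cast; rfl
    exact_mod_cast h1
  -- tropical relations and the pigeonhole principle
  have h1 : ∀ (i : Fin N) (j : Fin r), ∃ p ∈ (A j).offDiag,
      (O i).valuation (b j p.1 * chr y p.1) = (O i).valuation (b j p.2 * chr y p.2) := fun i j =>
    exists_pair_val (O i) y hy0 (A j) (hA j) (b j) (hb j) (hysys j)
  choose p hpA hp using h1
  obtain ⟨s, hs, hcard⟩ := Finset.exists_lt_card_fiber_of_mul_lt_card_of_maps_to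
    (s := (Finset.univ : Finset (Fin N))) (t := pairs A) (f := p) (n := t)
    (fun i _ => Fintype.mem_piFinset.2 fun j => hpA i j)
    (by rw [Finset.card_univ, Fintype.card_fin]; exact hN)
  -- a relation
  have hker : ∃ k : Fin r → ℤ, k ≠ 0 ∧ ∑ j, k j • δ s j ∈ Λ := by
    let ψ : ((Fin r → ℤ) × Λ) →ₗ[ℤ] (Fin n → ℤ) :=
      (Fintype.linearCombination ℤ (δ s)).coprod (-Λ.subtype)
    have hψ : ∀ k a, ψ (k, a) = ∑ j, k j • δ s j - (a : Fin n → ℤ) := by
      intro k a
      simp only [ψ, LinearMap.coprod_apply, LinearMap.neg_apply, Submodule.subtype_apply]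
      rw [Fintype.linearCombination_apply, sub_eq_add_neg]
    have hnot : ¬ Function.Injective ψ := by
      intro hinj
      have h2 := LinearMap.finrank_le_finrank_of_injective hinj
      rw [Module.finrank_prod, Module.finrank_fin_fun, Module.finrank_fin_fun] at h2
      omega
    rw [injective_iff_map_eq_zero] at hnot
    push Not at hnot
    obtain ⟨⟨k, a⟩, hka, hne⟩ := hnot
    rw [hψ, sub_eq_zero] at hka
    refine ⟨k, ?_, by rw [hka]; exact a.2⟩
    rintro rfl
    apply hne
    have h3 : (a : Fin n → ℤ) = 0 := by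
      rw [← hka]
      simp
    exact Prod.ext rfl (Subtype.ext h3)
  obtain ⟨k, hk0, hkΛ⟩ := hker
  refine ⟨s, hs, k, hk0, ?_⟩
  have hsub : (↑((Finset.univ : Finset (Fin N)).filter fun i => p i = s) : Set (Fin N)) ⊆
      {i | ∑ j, k j * (e i j (s j).1 - e i j (s j).2) = 0} := by
    intro i hi
    have hi' : p i = s := (Finset.mem_filter.1 (Finset.mem_coe.1 hi)).2
    set v := (O i).valuation (q i) with hv
    have hv0 : v ≠ 0 := (Valuation.ne_zero_iff _).2 (hq0 i)
    have hv1 : v < 1 := hq i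
    -- the valuation of the characters
    have h2 : ∀ j, (O i).valuation (chr y (δ s j)) = v ^ (e i j (s j).2 - e i j (s j).1) := by
      intro j
      have h3 := hp i j
      have h3A := Finset.mem_offDiag.1 (hpA i j)
      rw [hi'] at h3 h3A
      have hne1 : (O i).valuation (chr y (s j).2) ≠ 0 :=
        (Valuation.ne_zero_iff _).2 (chr_ne_zero hy0 _)
      rw [map_mul, map_mul, he i j _ h3A.1, he i j _ h3A.2.1] at h3
      change (O i).valuation (chr y ((s j).1 - (s j).2)) = _
      rw [chr_sub hy0, map_div₀, div_eq_iff hne1, zpow_sub₀ hv0]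
      field_simp
      rw [mul_comm]
      exact h3
    obtain ⟨m, hm, h4⟩ := hΛ _ hkΛ
    have h5 : (O i).valuation (chr y (∑ j, k j • δ s j)) = 1 := by
      have h6 := congrArg (O i).valuation h4
      rw [map_pow, map_one, map_div₀] at h6
      have h7 := (pow_eq_one_iff_of_nonneg zero_le hm.ne').1 h6
      have h8 : (O i).valuation (chr η (∑ j, k j • δ s j)) = 1 := by
        rw [chr, map_prod]
        refine Finset.prod_eq_one fun l _ => ?_
        rw [map_zpow₀, hηO i l, one_zpow]
      rwa [h8, div_one] at h7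
    have h9 : chr y (∑ j, k j • δ s j) = ∏ j, chr y (δ s j) ^ k j := by
      have : ∀ S : Finset (Fin r), chr y (∑ j ∈ S, k j • δ s j) = ∏ j ∈ S, chr y (δ s j) ^ k j := by
        intro S
        induction S using Finset.induction_on with
        | empty => simp [chr_zero]
        | insert j S hj ih =>
          rw [Finset.sum_insert hj, Finset.prod_insert hj, chr_add hy0, chr_zsmul, ih]
      exact this _
    rw [h9, map_prod] at h5
    have h10 : ∀ j, (O i).valuation (chr y (δ s j) ^ k j) =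
        v ^ (k j * (e i j (s j).2 - e i j (s j).1)) := by
      intro j
      rw [map_zpow₀, h2, ← zpow_mul, mul_comm]
    simp only [h10] at h5
    rw [← zpow_sum hv0] at h5
    have h11 := (zpow_eq_one_iff_right₀ zero_le hv1.ne).1 h5
    change ∑ j, k j * (e i j (s j).1 - e i j (s j).2) = 0
    have h12 : ∑ j, k j * (e i j (s j).1 - e i j (s j).2) =
        -∑ j, k j * (e i j (s j).2 - e i j (s j).1) := by
      rw [← Finset.sum_neg_distrib]
      exact Finset.sum_congr rfl fun j _ => by ring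
    rw [h12, h11, neg_zero]
  have h13 := Set.ncard_le_ncard hsub (Set.toFinite _)
  rw [Set.ncard_coe_finset] at h13
  exact hcard.trans_le h13

end Pool.Agent.N943.TS
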